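import Pool.Agent.Y994.KW.Stm

/-!
# Job KW-EXT of helper994: some strand crosses every slab; monotonicity and locality of `T1`
-/

set_option autoImplicit false

namespace Y994.KW.Ext141

/-- the walker moves to the left -/
def lf (q t : ℤ) : St := ((q, t), (q, t + 1))

/-- the walker moves to the right -/
def rg (q t : ℤ) : St := ((q, t + 1), (q, t))

/-- twice the level -/
def lev (s : St) : ℤ := s.1.2 + s.2.2

theorem nxt_up (σ : Cfg) (q t : ℤ) :
    nxt σ (up q t) = if σ q t = false then rg (q + 1) t else lf q t := by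
  simp [nxt, up, tl, rot, rg, lf]

theorem nxt_dn (σ : Cfg) (q t : ℤ) :
    nxt σ (dn q t) = if σ q (t - 1) = false then lf q (t - 1) else rg (q + 1) (t - 1) := by
  simp [nxt, dn, tl, rot, rg, lf, ← sub_eq_add_neg]

theorem nxt_lf (σ : Cfg) (q t : ℤ) :
    nxt σ (lf q t) = if σ (q - 1) t = true then up (q - 1) (t + 1) else dn (q - 1) t := by
  simp [nxt, up, dn, tl, rot, lf, ← sub_eq_add_neg]

theorem nxt_rg (σ : Cfg) (q t : ℤ) :
    nxt σ (rg q t) = if σ q t = true then dn q t else up q (t + 1) := by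
  simp [nxt, up, dn, tl, rot, rg]

theorem rev_up (q t : ℤ) : rev (up q t) = dn q t := rfl
theorem rev_dn (q t : ℤ) : rev (dn q t) = up q t := rfl
theorem rev_lf (q t : ℤ) : rev (lf q t) = rg q t := rfl
theorem rev_rg (q t : ℤ) : rev (rg q t) = lf q t := rfl
theorem rev_rev (s : St) : rev (rev s) = s := rfl
theorem lev_up (q t : ℤ) : lev (up q t) = 2 * t := by simp [lev, up]; ring
theorem lev_dn (q t : ℤ) : lev (dn q t) = 2 * t := by simp [lev, dn]; ring
theorem lev_lf (q t : ℤ) : lev (lf q t) = 2 * t + 1 := by simp [lev, lf]; ring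
theorem lev_rg (q t : ℤ) : lev (rg q t) = 2 * t + 1 := by simp [lev, rg]; ring
theorem sh_up (z q t : ℤ) : sh z (up q t) = up (q + z) t := by
  simp only [sh, up, Prod.mk.injEq, and_true, true_and]; ring
theorem sh_dn (z q t : ℤ) : sh z (dn q t) = dn (q + z) t := by
  simp only [sh, dn, Prod.mk.injEq, and_true]; ring
theorem sh_lf (z q t : ℤ) : sh z (lf q t) = lf (q + z) t := rfl
theorem sh_rg (z q t : ℤ) : sh z (rg q t) = rg (q + z) t := rfl
theorem lev_sh (z : ℤ) (s : St) : lev (sh z s) = lev s := rfl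
theorem lev_rev (s : St) : lev (rev s) = lev s := by simp [lev, rev]; ring

theorem ok_cases {s : St} (h : Ok s) :
    ∃ q t : ℤ, s = up q t ∨ s = dn q t ∨ s = lf q t ∨ s = rg q t := h

theorem ok_up (q t : ℤ) : Ok (up q t) := ⟨q, t, Or.inl rfl⟩
theorem ok_dn (q t : ℤ) : Ok (dn q t) := ⟨q, t, Or.inr (Or.inl rfl)⟩
theorem ok_lf (q t : ℤ) : Ok (lf q t) := ⟨q, t, Or.inr (Or.inr (Or.inl rfl))⟩
theorem ok_rg (q t : ℤ) : Ok (rg q t) := ⟨q, t, Or.inr (Or.inr (Or.inr rfl))⟩

theorem ok_nxt {σ : Cfg} {s : St} (h : Ok s) : Ok (nxt σ s) := by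
  obtain ⟨q, t, rfl | rfl | rfl | rfl⟩ := ok_cases h
  · rw [nxt_up]; split_ifs <;> first | exact ok_lf _ _ | exact ok_rg _ _
  · rw [nxt_dn]; split_ifs <;> first | exact ok_lf _ _ | exact ok_rg _ _
  · rw [nxt_lf]; split_ifs <;> first | exact ok_up _ _ | exact ok_dn _ _
  · rw [nxt_rg]; split_ifs <;> first | exact ok_up _ _ | exact ok_dn _ _

theorem ok_rev {s : St} (h : Ok s) : Ok (rev s) := by
  obtain ⟨q, t, rfl | rfl | rfl | rfl⟩ := ok_cases h
  · exact ok_dn _ _
  · exact ok_up _ _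
  · exact ok_rg _ _
  · exact ok_lf _ _

theorem ok_sh {s : St} (z : ℤ) (h : Ok s) : Ok (sh z s) := by
  obtain ⟨q, t, rfl | rfl | rfl | rfl⟩ := ok_cases h
  · rw [sh_up]; exact ok_up _ _
  · rw [sh_dn]; exact ok_dn _ _
  · rw [sh_lf]; exact ok_lf _ _
  · rw [sh_rg]; exact ok_rg _ _

theorem lev_nxt {σ : Cfg} {s : St} (h : Ok s) :
    lev (nxt σ s) = lev s + 1 ∨ lev (nxt σ s) = lev s - 1 := by
  obtain ⟨q, t, rfl | rfl | rfl | rfl⟩ := ok_cases h
  · rw [nxt_up, lev_up]
    split_ifs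
    · rw [lev_rg]; omega
    · rw [lev_lf]; omega
  · rw [nxt_dn, lev_dn]
    split_ifs
    · rw [lev_lf]; omega
    · rw [lev_rg]; omega
  · rw [nxt_lf, lev_lf]
    split_ifs
    · rw [lev_up]; omega
    · rw [lev_dn]; omega
  · rw [nxt_rg, lev_rg]
    split_ifs
    · rw [lev_dn]; omega
    · rw [lev_up]; omega

theorem back {σ : Cfg} {s : St} (h : Ok s) : nxt σ (rev (nxt σ s)) = rev s := by
  obtain ⟨q, t, rfl | rfl | rfl | rfl⟩ := ok_cases h
  · rw [nxt_up]
    split_ifs with h1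
    · rw [rev_rg, nxt_lf, add_sub_cancel_right, if_neg (by simp [h1])]
      rfl
    · rw [rev_lf, nxt_rg, if_pos (by simpa using h1)]
      rfl
  · rw [nxt_dn]
    split_ifs with h1
    · rw [rev_lf, nxt_rg, if_neg (by simp [h1]), sub_add_cancel]
      rfl
    · rw [rev_rg, nxt_lf, add_sub_cancel_right, if_pos (by simpa using h1), sub_add_cancel]
      rfl
  · rw [nxt_lf]
    split_ifs with h1
    · rw [rev_up, nxt_dn, add_sub_cancel_right, if_neg (by simp [h1]), sub_add_cancel]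
      rfl
    · rw [rev_dn, nxt_up, if_pos (by simpa using h1), sub_add_cancel]
      rfl
  · rw [nxt_rg]
    split_ifs with h1
    · rw [rev_dn, nxt_up, if_neg (by simp [h1])]
      rfl
    · rw [rev_up, nxt_dn, add_sub_cancel_right, if_pos (by simpa using h1)]
      rfl

theorem per_z {n : ℕ} {σ : Cfg} (h : Per n σ) (z j t : ℤ) : σ (j + (2 * n + 1) * z) t = σ j t := by
  induction z using Int.induction_on with
  | zero => simp
  | succ i ih =>
    have e : j + (2 * (n : ℤ) + 1) * ((i : ℤ) + 1) = (j + (2 * n + 1) * i) + (2 * n + 1) := by ring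
    rw [e, h, ih]
  | pred i ih =>
    have e : j + (2 * (n : ℤ) + 1) * (-(i : ℤ)) =
      (j + (2 * n + 1) * (-(i : ℤ) - 1)) + (2 * n + 1) := by ring
    rw [e, h] at ih
    exact ih

theorem nxt_sh {n : ℕ} {σ : Cfg} (hp : Per n σ) (z : ℤ) {s : St} (h : Ok s) :
    nxt σ (sh ((2 * n + 1) * z) s) = sh ((2 * n + 1) * z) (nxt σ s) := by
  obtain ⟨q, t, rfl | rfl | rfl | rfl⟩ := ok_cases h
  · rw [sh_up, nxt_up, nxt_up, per_z hp]
    split_ifs
    · rw [sh_rg, add_right_comm]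
    · rw [sh_lf]
  · rw [sh_dn, nxt_dn, nxt_dn, per_z hp]
    split_ifs
    · rw [sh_lf]
    · rw [sh_rg, add_right_comm]
  · rw [sh_lf, nxt_lf, nxt_lf, add_sub_right_comm, per_z hp]
    split_ifs
    · rw [sh_up]
    · rw [sh_dn]
  · rw [sh_rg, nxt_rg, nxt_rg, per_z hp]
    split_ifs
    · rw [sh_dn]
    · rw [sh_up]

theorem ok_it {σ : Cfg} {s : St} (h : Ok s) (i : ℕ) : Ok ((nxt σ)^[i] s) := by
  induction i with
  | zero => exact h
  | succ i ih =>
    rw [Function.iterate_succ_apply']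
    exact ok_nxt ih

theorem it_sh {n : ℕ} {σ : Cfg} (hp : Per n σ) (z : ℤ) {s : St} (h : Ok s) (i : ℕ) :
    (nxt σ)^[i] (sh ((2 * n + 1) * z) s) = sh ((2 * n + 1) * z) ((nxt σ)^[i] s) := by
  induction i with
  | zero => rfl
  | succ i ih =>
    rw [Function.iterate_succ_apply', Function.iterate_succ_apply', ih, nxt_sh hp z (ok_it h i)]

theorem it_rev {σ : Cfg} {s : St} (h : Ok s) (i : ℕ) :
    (nxt σ)^[i] (rev ((nxt σ)^[i] s)) = rev s := by
  induction i with
  | zero => rfl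
  | succ i ih =>
    rw [Function.iterate_succ_apply (nxt σ) i (rev _), Function.iterate_succ_apply',
      back (ok_it h i), ih]

theorem it_rev' {σ : Cfg} {s : St} (h : Ok s) {i j : ℕ} (hj : j ≤ i) :
    (nxt σ)^[j] (rev ((nxt σ)^[i] s)) = rev ((nxt σ)^[i - j] s) := by
  have e : (nxt σ)^[i] s = (nxt σ)^[j] ((nxt σ)^[i - j] s) := by
    rw [← Function.iterate_add_apply, Nat.add_sub_cancel' hj]
  rw [e, it_rev (ok_it h _)]

theorem it_inj {σ : Cfg} {s s' : St} (h : Ok s) (h' : Ok s') {i : ℕ}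
    (he : (nxt σ)^[i] s = (nxt σ)^[i] s') : s = s' := by
  have h1 := it_rev (σ := σ) h i
  have h2 := it_rev (σ := σ) h' i
  rw [he, h2] at h1
  have h3 := congrArg rev h1
  exact h3.symm

theorem sh_sh (z w : ℤ) (s : St) : sh z (sh w s) = sh (w + z) s := by
  simp only [sh, add_assoc]

theorem sh_zero (s : St) : sh 0 s = s := by
  simp only [sh, add_zero]

/-- going back from a coincidence -/
theorem it_back {n : ℕ} {σ : Cfg} (hp : Per n σ) (z : ℤ) {s s' : St} (h : Ok s) (h' : Ok s')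
    {i k : ℕ} (hik : i ≤ k) (he : (nxt σ)^[k] s' = sh ((2 * n + 1) * z) ((nxt σ)^[i] s)) :
    (nxt σ)^[k - i] s' = sh ((2 * n + 1) * z) s := by
  rw [← it_sh hp z h] at he
  have e : (nxt σ)^[k] s' = (nxt σ)^[i] ((nxt σ)^[k - i] s') := by
    rw [← Function.iterate_add_apply, Nat.add_sub_cancel' hik]
  rw [e] at he
  exact it_inj (ok_it h' _) (ok_sh _ h) he

theorem inn_iff (u v : ℤ) (s : St) : Inn u v s ↔ 2 * u < lev s ∧ lev s < 2 * v := Iff.rfl

/-- the strand leaves the slab -/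
theorem not_forever {n : ℕ} {σ : Cfg} (hp : Per n σ) (u v p : ℤ) :
    ∃ i : ℕ, 0 < i ∧ ¬ Inn u v ((nxt σ)^[i] (up p u)) := by
  by_contra hcon
  push Not at hcon
  have hN : (0 : ℤ) < 2 * n + 1 := by positivity
  obtain ⟨f, hf⟩ : ∃ f : ℕ → St, ∀ i, f i = sh ((2 * n + 1) *
      (-(((nxt σ)^[i + 1] (up p u)).1.1 / (2 * n + 1)))) ((nxt σ)^[i + 1] (up p u)) :=
    ⟨_, fun i => rfl⟩
  have hfin : (Set.Icc (((0, u - 1), (-1, u - 1)) : St)
      ((2 * n + 1, v + 1), (2 * n + 2, v + 1))).Finite := Set.finite_Icc _ _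
  have hmem : ∀ i, f i ∈ (Set.Icc (((0, u - 1), (-1, u - 1)) : St)
      ((2 * n + 1, v + 1), (2 * n + 2, v + 1))) := by
    intro i
    have h1 := hcon (i + 1) (Nat.succ_pos i)
    rw [inn_iff] at h1
    have h3 : 0 ≤ (f i).1.1 ∧ (f i).1.1 < 2 * n + 1 := by
      have e : (f i).1.1 = ((nxt σ)^[i + 1] (up p u)).1.1 % (2 * n + 1) := by
        rw [hf, Int.emod_def]
        simp only [sh]
        ring
      rw [e]
      exact ⟨Int.emod_nonneg _ hN.ne', Int.emod_lt_of_pos _ hN⟩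
    have h4 : lev (f i) = lev ((nxt σ)^[i + 1] (up p u)) := by rw [hf, lev_sh]
    rw [← h4] at h1
    have h2 : Ok (f i) := by
      rw [hf]
      exact ok_sh _ (ok_it (ok_up _ _) _)
    obtain ⟨q, t, e | e | e | e⟩ := ok_cases h2 <;> rw [e] at h1 h3 ⊢ <;>
      simp only [up, dn, lf, rg, lev, Set.mem_Icc, Prod.mk_le_mk] at h1 h3 ⊢ <;>
      (obtain ⟨h5, h6⟩ := h1; obtain ⟨h7, h8⟩ := h3; refine ⟨⟨⟨?_, ?_⟩, ?_, ?_⟩, ⟨?_, ?_⟩, ?_, ?_⟩ <;> omega)
  have hni : ¬ Function.Injective f := fun hi =>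
    (Set.infinite_of_injective_forall_mem hi hmem) hfin
  rw [Function.Injective] at hni
  push Not at hni
  obtain ⟨a, b, hab, hne⟩ := hni
  have main : ∀ a b : ℕ, a < b → f a = f b → False := by
    intro a b hlt he
    rw [hf, hf] at he
    have e1 : (nxt σ)^[b + 1] (up p u) = sh ((2 * n + 1) *
        (((nxt σ)^[b + 1] (up p u)).1.1 / (2 * n + 1) -
          ((nxt σ)^[a + 1] (up p u)).1.1 / (2 * n + 1))) ((nxt σ)^[a + 1] (up p u)) := by
      have e2 := congrArg (sh ((2 * n + 1) * (((nxt σ)^[b + 1] (up p u)).1.1 / (2 * n + 1)))) he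
      rw [sh_sh, sh_sh] at e2
      have e3 : (2 * (n : ℤ) + 1) * (-(((nxt σ)^[b + 1] (up p u)).1.1 / (2 * n + 1))) +
          (2 * n + 1) * (((nxt σ)^[b + 1] (up p u)).1.1 / (2 * n + 1)) = 0 := by ring
      rw [e3, sh_zero] at e2
      refine e2.symm.trans ?_
      congr 1
      ring
    have e4 := it_back hp _ (ok_up p u) (ok_up p u) (show a + 1 ≤ b + 1 by omega) e1
    have h5 := hcon (b + 1 - (a + 1)) (by omega)
    rw [inn_iff, e4, lev_sh, lev_up] at h5
    omega
  rcases Nat.lt_or_gt_of_ne hne with h | h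
  · exact main a b h hab
  · exact main b a h hab.symm

/-- where the strand leaves the slab -/
theorem exit {n : ℕ} {σ : Cfg} (hp : Per n σ) {u v : ℤ} (huv : u < v) (p : ℤ) :
    ∃ m : ℕ, 0 < m ∧ (∀ i : ℕ, 0 < i → i < m → Inn u v ((nxt σ)^[i] (up p u))) ∧
      ((∃ q, (nxt σ)^[m] (up p u) = up q v) ∨ ∃ q, (nxt σ)^[m] (up p u) = dn q u) := by
  classical
  have hex := not_forever hp u v p
  obtain ⟨m, hm⟩ : ∃ m, m = Nat.find hex := ⟨_, rfl⟩
  have hm1 := Nat.find_spec hex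
  rw [← hm] at hm1
  have hin : ∀ i : ℕ, 0 < i → i < m → Inn u v ((nxt σ)^[i] (up p u)) := by
    intro i h1 h2
    have h3 := Nat.find_min hex (m := i) (by rw [← hm]; exact h2)
    by_contra h4
    exact h3 ⟨h1, h4⟩
  refine ⟨m, hm1.1, hin, ?_⟩
  obtain ⟨k, rfl⟩ : ∃ k, m = k + 1 := ⟨m - 1, by omega⟩
  have hni := hm1.2
  rw [Function.iterate_succ_apply'] at hni ⊢
  have hok : Ok ((nxt σ)^[k] (up p u)) := ok_it (ok_up _ _) k
  rcases Nat.eq_zero_or_pos k with h0 | h0
  · exfalso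
    subst h0
    apply hni
    change Inn u v (nxt σ (up p u))
    rw [inn_iff, nxt_up]
    split_ifs
    · rw [lev_rg]; omega
    · rw [lev_lf]; omega
  · have hk := hin k h0 (by omega)
    rw [inn_iff] at hk hni
    obtain ⟨q, t, e | e | e | e⟩ := ok_cases hok
    · exfalso
      rw [e, nxt_up] at hni
      rw [e, lev_up] at hk
      apply hni
      split_ifs
      · rw [lev_rg]; omega
      · rw [lev_lf]; omega
    · exfalso
      rw [e, nxt_dn] at hni
      rw [e, lev_dn] at hk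
      apply hni
      split_ifs
      · rw [lev_lf]; omega
      · rw [lev_rg]; omega
    · rw [e, nxt_lf] at hni ⊢
      rw [e, lev_lf] at hk
      by_cases c : σ (q - 1) t = true
      · rw [if_pos c, lev_up] at hni
        rw [if_pos c]
        left
        have h1 : t + 1 = v := by omega
        exact ⟨q - 1, by rw [h1]⟩
      · rw [if_neg c, lev_dn] at hni
        rw [if_neg c]
        right
        have h1 : t = u := by omega
        exact ⟨q - 1, by rw [h1]⟩
    · rw [e, nxt_rg] at hni ⊢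
      rw [e, lev_rg] at hk
      by_cases c : σ q t = true
      · rw [if_pos c, lev_dn] at hni
        rw [if_pos c]
        right
        have h1 : t = u := by omega
        exact ⟨q, by rw [h1]⟩
      · rw [if_neg c, lev_up] at hni
        rw [if_neg c]
        left
        have h1 : t + 1 = v := by omega
        exact ⟨q, by rw [h1]⟩

/-- the strand from `up p u` ends at `dn q u` -/
def Dn (σ : Cfg) (u v p q : ℤ) : Prop := ∃ m : ℕ, 0 < m ∧
  (∀ i : ℕ, 0 < i → i < m → Inn u v ((nxt σ)^[i] (up p u))) ∧ (nxt σ)^[m] (up p u) = dn q u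

theorem up_inj {q q' t t' : ℤ} (h : up q t = up q' t') : q = q' ∧ t = t' := by
  simp only [up, Prod.mk.injEq] at h
  exact h.1

theorem dn_inj {q q' t t' : ℤ} (h : dn q t = dn q' t') : q = q' ∧ t = t' := by
  simp only [dn, Prod.mk.injEq] at h
  exact h.2

theorem Dn.unique {σ : Cfg} {u v p q q' : ℤ} (h : Dn σ u v p q) (h' : Dn σ u v p q') : q = q' := by
  obtain ⟨m, h1, h2, h3⟩ := h
  obtain ⟨m', h1', h2', h3'⟩ := h'
  rcases Nat.lt_trichotomy m m' with h | h | h
  · have h4 := h2' m h1 h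
    rw [inn_iff, h3, lev_dn] at h4
    omega
  · subst h
    rw [h3] at h3'
    exact (dn_inj h3').1
  · have h4 := h2 m' h1' h
    rw [inn_iff, h3', lev_dn] at h4
    omega

theorem Dn.symm {σ : Cfg} {u v p q : ℤ} (h : Dn σ u v p q) : Dn σ u v q p := by
  obtain ⟨m, h1, h2, h3⟩ := h
  have e : up q u = rev ((nxt σ)^[m] (up p u)) := by rw [h3]; rfl
  refine ⟨m, h1, fun i h4 h5 => ?_, ?_⟩
  · rw [e, it_rev' (ok_up _ _) h5.le, inn_iff, lev_rev, ← inn_iff]
    exact h2 (m - i) (by omega) (by omega)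
  · rw [e, it_rev (ok_up _ _)]
    rfl

theorem Dn.shift {n : ℕ} {σ : Cfg} (hp : Per n σ) {u v p q : ℤ} (z : ℤ) (h : Dn σ u v p q) :
    Dn σ u v (p + (2 * n + 1) * z) (q + (2 * n + 1) * z) := by
  obtain ⟨m, h1, h2, h3⟩ := h
  refine ⟨m, h1, fun i h4 h5 => ?_, ?_⟩
  · rw [← sh_up, it_sh hp z (ok_up _ _), inn_iff, lev_sh, ← inn_iff]
    exact h2 i h4 h5
  · rw [← sh_up, it_sh hp z (ok_up _ _), h3, sh_dn]

theorem Dn.ne {n : ℕ} {σ : Cfg} (hp : Per n σ) {u v p q : ℤ} (h : Dn σ u v p q) (z : ℤ) :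
    q ≠ p + (2 * n + 1) * z := by
  intro hq
  obtain ⟨m, h1, h2, h3⟩ := h
  rw [hq, ← sh_dn, ← rev_up] at h3
  have key : ∀ l ≤ m, (nxt σ)^[m - l] (up p u) = sh ((2 * n + 1) * z) (rev ((nxt σ)^[l] (up p u))) := by
    intro l hl
    have e1 := it_rev' (σ := σ) (ok_up p u) hl
    have e2 : rev ((nxt σ)^[m] (up p u)) = sh ((2 * n + 1) * z) (up p u) := by
      rw [h3]; rfl
    rw [e2, it_sh hp z (ok_up p u)] at e1
    have e3 := congrArg rev e1
    rw [rev_rev] at e3
    rw [← e3]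
    rfl
  rcases Nat.even_or_odd' m with ⟨l, h4 | h4⟩
  · have h5 := key l (by omega)
    rw [show m - l = l by omega] at h5
    have h6 : Ok ((nxt σ)^[l] (up p u)) := ok_it (ok_up p u) l
    obtain ⟨q', t, e | e | e | e⟩ := ok_cases h6
    · rw [e, rev_up, sh_dn] at h5
      simp only [up, dn, Prod.mk.injEq] at h5
      omega
    · rw [e, rev_dn, sh_up] at h5
      simp only [up, dn, Prod.mk.injEq] at h5
      omega
    · rw [e, rev_lf, sh_rg] at h5
      simp only [lf, rg, Prod.mk.injEq] at h5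
      omega
    · rw [e, rev_rg, sh_lf] at h5
      simp only [lf, rg, Prod.mk.injEq] at h5
      omega
  · have h5 := key l (by omega)
    rw [show m - l = l + 1 by omega, Function.iterate_succ_apply'] at h5
    have h6 := lev_nxt (σ := σ) (ok_it (σ := σ) (ok_up p u) l)
    rw [h5, lev_sh, lev_rev] at h6
    omega

theorem Thr.shift {n : ℕ} {σ : Cfg} (hp : Per n σ) {u v p q : ℤ} (z : ℤ) (h : Thr σ u v p q) :
    Thr σ u v (p + (2 * n + 1) * z) (q + (2 * n + 1) * z) := by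
  obtain ⟨m, h1, h2, h3⟩ := h
  refine ⟨m, h1, ?_, fun i h4 h5 => ?_⟩
  · rw [← sh_up, it_sh hp z (ok_up _ _), h2, sh_up]
  · rw [← sh_up, it_sh hp z (ok_up _ _), inn_iff, lev_sh, ← inn_iff]
    exact h3 i h4 h5

theorem exists_thr {n : ℕ} {σ : Cfg} (hp : Per n σ) {u v : ℤ} (huv : u < v) :
    ∃ p q : ℤ, Thr σ u v p q := by
  classical
  by_contra hcon
  push Not at hcon
  have hD : ∀ p : ℤ, ∃ q, Dn σ u v p q := by
    intro p
    obtain ⟨m, h1, h2, ⟨q, h3⟩ | ⟨q, h3⟩⟩ := exit hp huv p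
    · exact absurd ⟨m, h1, h3, h2⟩ (hcon p q)
    · exact ⟨q, m, h1, h2, h3⟩
  choose f hf using hD
  obtain ⟨N, hN⟩ : ∃ N : ℤ, N = 2 * n + 1 := ⟨_, rfl⟩
  have hN0 : 0 < N := by rw [hN]; positivity
  have hfs : ∀ p z : ℤ, f (p + N * z) = f p + N * z := by
    intro p z
    have h1 := (hf p).shift hp z
    rw [← hN] at h1
    exact (hf _).unique h1
  have hff : ∀ p, f (f p) = p := fun p => (hf (f p)).unique (hf p).symm
  have hfm : ∀ p, f (p % N) % N = f p % N := by
    intro p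
    have h1 : p = p % N + N * (p / N) := (Int.emod_add_mul_ediv p N).symm
    conv_rhs => rw [h1, hfs]
    rw [Int.add_mul_emod_self_left]
  have hsum := Finset.sum_involution (s := Finset.Ico 0 N) (f := fun _ => (1 : ZMod 2))
    (g := fun p _ => f p % N) (fun _ _ => by decide) (by
      intro p hp' _ he
      have h1 : f p = p + N * (f p / N) := by
        conv_lhs => rw [← Int.emod_add_mul_ediv (f p) N]
        rw [he]
      rw [hN] at h1
      exact (hf p).ne hp _ h1) (by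
      intro p _
      rw [Finset.mem_Ico]
      exact ⟨Int.emod_nonneg _ hN0.ne', Int.emod_lt_of_pos _ hN0⟩) (by
      intro p hp'
      rw [Finset.mem_Ico] at hp'
      rw [hfm, hff]
      exact Int.emod_eq_of_lt hp'.1 hp'.2)
  rw [Finset.sum_const, Int.card_Ico, sub_zero, nsmul_eq_mul, mul_one] at hsum
  have h2 : N.toNat = 2 * n + 1 := by omega
  rw [h2] at hsum
  push_cast at hsum
  have h3 : (2 : ZMod 2) = 0 := by decide
  rw [h3, zero_mul, zero_add] at hsum
  exact one_ne_zero hsum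

/-- levels of a strand which crosses the slab -/
theorem thr_lev {σ : Cfg} {p u : ℤ} (i : ℕ) :
    lev ((nxt σ)^[i + 1] (up p u)) = lev ((nxt σ)^[i] (up p u)) + 1 ∨
    lev ((nxt σ)^[i + 1] (up p u)) = lev ((nxt σ)^[i] (up p u)) - 1 := by
  rw [Function.iterate_succ_apply']
  exact lev_nxt (ok_it (ok_up _ _) i)

/-- a strand which crosses the slab contains a strand which crosses the smaller slab -/
theorem contain {σ : Cfg} {u u' v' v p q : ℤ} (h1 : u ≤ u') (h2 : u' < v') (h3 : v' ≤ v)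
    (h : Thr σ u v p q) : ∃ m a : ℕ, ∃ p' q' : ℤ, a < m ∧ (nxt σ)^[m] (up p u) = up q v ∧
      (∀ i : ℕ, 0 < i → i < m → Inn u v ((nxt σ)^[i] (up p u))) ∧
      (nxt σ)^[a] (up p u) = up p' u' ∧ Thr σ u' v' p' q' := by
  classical
  obtain ⟨m, g1, g2, g3⟩ := h
  have hok : ∀ i, Ok ((nxt σ)^[i] (up p u)) := fun i => ok_it (ok_up _ _) i
  have l0 : lev ((nxt σ)^[0] (up p u)) = 2 * u := lev_up p u
  have lm : lev ((nxt σ)^[m] (up p u)) = 2 * v := by rw [g2, lev_up]
  have hex : ∃ i, 2 * v' ≤ lev ((nxt σ)^[i] (up p u)) := ⟨m, by rw [lm]; omega⟩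
  obtain ⟨b, hb⟩ : ∃ b, b = Nat.find hex := ⟨_, rfl⟩
  have hb1 := Nat.find_spec hex
  rw [← hb] at hb1
  have hb2 : ∀ i < b, lev ((nxt σ)^[i] (up p u)) < 2 * v' := by
    intro i hi
    have := Nat.find_min hex (m := i) (by rw [← hb]; exact hi)
    omega
  have hbm : b ≤ m := by
    rw [hb]
    exact Nat.find_min' hex (by rw [lm]; omega)
  have hb0 : 0 < b := by
    rcases Nat.eq_zero_or_pos b with h | h
    · rw [h, l0] at hb1
      omega
    · exact h
  obtain ⟨a, ha⟩ : ∃ a, a = Nat.findGreatest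
    (fun i => lev ((nxt σ)^[i] (up p u)) ≤ 2 * u') b := ⟨_, rfl⟩
  have ha1 : lev ((nxt σ)^[a] (up p u)) ≤ 2 * u' := by
    rw [ha]
    exact Nat.findGreatest_spec (P := fun i => lev ((nxt σ)^[i] (up p u)) ≤ 2 * u')
      (Nat.zero_le b) (by rw [l0]; omega)
  have hab : a ≤ b := by
    rw [ha]
    exact Nat.findGreatest_le b
  have ha2 : ∀ i, a < i → i ≤ b → 2 * u' < lev ((nxt σ)^[i] (up p u)) := by
    intro i hi1 hi2
    have := Nat.findGreatest_is_greatest (P := fun i => lev ((nxt σ)^[i] (up p u)) ≤ 2 * u')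
      (n := b) (k := i) (by rw [← ha]; exact hi1) hi2
    omega
  have hab' : a < b := by
    rcases Nat.lt_or_ge a b with h | h
    · exact h
    · have : a = b := by omega
      rw [this] at ha1
      omega
  have hla := thr_lev (σ := σ) (p := p) (u := u) a
  have hla1 := ha2 (a + 1) (by omega) (by omega)
  have hlb := thr_lev (σ := σ) (p := p) (u := u) (b - 1)
  rw [Nat.sub_add_cancel hb0] at hlb
  have hlb1 := hb2 (b - 1) (by omega)
  -- the state at the time `a`
  have hsa : ∃ p', (nxt σ)^[a] (up p u) = up p' u' := by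
    obtain ⟨q', t, e | e | e | e⟩ := ok_cases (hok a)
    · have h5 := hla
      rw [e, lev_up] at h5 ha1
      have : t = u' := by omega
      exact ⟨q', by rw [e, this]⟩
    · exfalso
      rw [Function.iterate_succ_apply', e, nxt_dn, lev_dn] at hla
      rw [Function.iterate_succ_apply', e, nxt_dn] at hla1
      rw [e, lev_dn] at ha1
      by_cases c : σ q' (t - 1) = false
      · rw [if_pos c, lev_lf] at hla1
        omega
      · rw [if_neg c, lev_rg] at hla1
        omega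
    · exfalso
      rw [e, lev_lf] at hla ha1
      omega
    · exfalso
      rw [e, lev_rg] at hla ha1
      omega
  -- the state at the time `b`
  have hsb : ∃ q', (nxt σ)^[b] (up p u) = up q' v' := by
    have eb : (nxt σ)^[b] (up p u) = nxt σ ((nxt σ)^[b - 1] (up p u)) := by
      have h := Function.iterate_succ_apply' (nxt σ) (b - 1) (up p u)
      rw [Nat.succ_eq_add_one, Nat.sub_add_cancel hb0] at h
      exact h
    obtain ⟨q', t, e | e | e | e⟩ := ok_cases (hok (b - 1))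
    · exfalso
      rw [e, lev_up] at hlb hlb1
      omega
    · exfalso
      rw [e, lev_dn] at hlb hlb1
      omega
    · rw [e, lev_lf] at hlb1
      rw [eb, e, nxt_lf] at hb1 ⊢
      by_cases c : σ (q' - 1) t = true
      · rw [if_pos c, lev_up] at hb1
        rw [if_pos c]
        have : t + 1 = v' := by omega
        exact ⟨q' - 1, by rw [this]⟩
      · rw [if_neg c, lev_dn] at hb1
        omega
    · rw [e, lev_rg] at hlb1
      rw [eb, e, nxt_rg] at hb1 ⊢
      by_cases c : σ q' t = true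
      · rw [if_pos c, lev_dn] at hb1
        omega
      · rw [if_neg c, lev_up] at hb1
        rw [if_neg c]
        have : t + 1 = v' := by omega
        exact ⟨q', by rw [this]⟩
  obtain ⟨p', hp'⟩ := hsa
  obtain ⟨q', hq'⟩ := hsb
  refine ⟨m, a, p', q', by omega, g2, g3, hp', b - a, by omega, ?_, ?_⟩
  · rw [← hp', ← Function.iterate_add_apply, Nat.sub_add_cancel hab, hq']
  · intro i h4 h5
    rw [← hp', ← Function.iterate_add_apply, inn_iff]
    exact ⟨ha2 (i + a) (by omega) (by omega), hb2 (i + a) (by omega)⟩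

/-! ### vertical translations -/

/-- vertical translation -/
def sv (h : ℤ) (s : St) : St := ((s.1.1, s.1.2 + h), (s.2.1, s.2.2 + h))

theorem sv_up (h q t : ℤ) : sv h (up q t) = up q (t + h) := rfl
theorem sv_dn (h q t : ℤ) : sv h (dn q t) = dn q (t + h) := rfl
theorem sv_lf (h q t : ℤ) : sv h (lf q t) = lf q (t + h) := by
  simp only [sv, lf, Prod.mk.injEq, true_and]; ring
theorem sv_rg (h q t : ℤ) : sv h (rg q t) = rg q (t + h) := by
  simp only [sv, rg, Prod.mk.injEq, and_true, true_and]; ring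
theorem lev_sv (h : ℤ) (s : St) : lev (sv h s) = lev s + 2 * h := by
  simp only [lev, sv]; ring

theorem nxt_sv {u v h : ℤ} {σ σ' : Cfg}
    (hσ : ∀ j t : ℤ, u ≤ t → t < v → σ' j (t + h) = σ j t) {s : St} (hs : Ok s)
    (hi : (Inn u v s) ∨ (u < v ∧ ∃ p, s = up p u)) : nxt σ' (sv h s) = sv h (nxt σ s) := by
  rcases hi with hi | ⟨huv, p, rfl⟩
  · rw [inn_iff] at hi
    obtain ⟨q, t, rfl | rfl | rfl | rfl⟩ := ok_cases hs
    · rw [lev_up] at hi
      rw [sv_up, nxt_up, nxt_up, hσ q t (by omega) (by omega)]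
      split_ifs
      · rw [sv_rg]
      · rw [sv_lf]
    · rw [lev_dn] at hi
      have e : t + h - 1 = t - 1 + h := by ring
      rw [sv_dn, nxt_dn, nxt_dn, e, hσ q (t - 1) (by omega) (by omega)]
      split_ifs
      · rw [sv_lf]
      · rw [sv_rg]
    · rw [lev_lf] at hi
      rw [sv_lf, nxt_lf, nxt_lf, hσ (q - 1) t (by omega) (by omega)]
      split_ifs
      · rw [sv_up]
        congr 1
        ring
      · rw [sv_dn]
    · rw [lev_rg] at hi
      rw [sv_rg, nxt_rg, nxt_rg, hσ q t (by omega) (by omega)]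
      split_ifs
      · rw [sv_dn]
      · rw [sv_up]
        congr 1
        ring
  · rw [sv_up, nxt_up, nxt_up, hσ p u le_rfl huv]
    split_ifs
    · rw [sv_rg]
    · rw [sv_lf]

theorem thr_lt {σ : Cfg} {u v p q : ℤ} (h : Thr σ u v p q) : u < v := by
  obtain ⟨m, h1, h2, h3⟩ := h
  by_contra hle
  have hm : m = 1 := by
    by_contra hm
    have h4 := h3 1 one_pos (by omega)
    rw [inn_iff] at h4
    omega
  rw [hm] at h2
  change nxt σ (up p u) = up q v at h2
  rw [nxt_up] at h2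
  have h5 := congrArg lev h2
  rw [lev_up] at h5
  by_cases c : σ p u = false
  · rw [if_pos c, lev_rg] at h5
    omega
  · rw [if_neg c, lev_lf] at h5
    omega

theorem thr_sv {u v h p q : ℤ} {σ σ' : Cfg}
    (hσ : ∀ j t : ℤ, u ≤ t → t < v → σ' j (t + h) = σ j t) (hT : Thr σ u v p q) :
    Thr σ' (u + h) (v + h) p q := by
  have huv := thr_lt hT
  obtain ⟨m, h1, h2, h3⟩ := hT
  have key : ∀ i ≤ m, (nxt σ')^[i] (up p (u + h)) = sv h ((nxt σ)^[i] (up p u)) := by
    intro i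
    induction i with
    | zero => intro _; rfl
    | succ i ih =>
      intro hi
      rw [Function.iterate_succ_apply', Function.iterate_succ_apply', ih (by omega)]
      refine nxt_sv hσ (ok_it (ok_up _ _) i) ?_
      rcases Nat.eq_zero_or_pos i with h0 | h0
      · subst h0
        exact Or.inr ⟨huv, p, rfl⟩
      · exact Or.inl (h3 i h0 (by omega))
  refine ⟨m, h1, ?_, fun i h4 h5 => ?_⟩
  · rw [key m le_rfl, h2, sv_up]
  · rw [key i h5.le, inn_iff, lev_sv]
    have := h3 i h4 h5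
    rw [inn_iff] at this
    omega

end Y994.KW.Ext141

namespace Y994.KW

open Ext141

/-- some strand crosses the slab -/
theorem t_EXT : S_INJT → S_EXT := by
  intro _ n σ u v _ hp huv
  obtain ⟨p, q, h⟩ := exists_thr hp huv
  obtain ⟨N, hN⟩ : ∃ N : ℤ, N = 2 * n + 1 := ⟨_, rfl⟩
  have hN0 : 0 < N := by rw [hN]; positivity
  have h1 : ∀ z : ℤ, Thr σ u v (p + N * z) (q + N * z) := by
    intro z
    rw [hN]
    exact Ext141.Thr.shift hp z h
  have e : p % N = p + N * (-(p / N)) := by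
    rw [Int.emod_def]
    ring
  have h2 := Int.emod_nonneg p hN0.ne'
  have h3 := Int.emod_lt_of_pos p hN0
  rw [← hN]
  by_cases c : (p % N + u) % 2 = 0
  · refine ⟨p % N, q + N * (-(p / N)), h2, by omega, c, ?_⟩
    rw [e]
    exact h1 _
  · refine ⟨p % N + N, q + N * (-(p / N) + 1), by omega, by omega, by omega, ?_⟩
    have e2 : p % N + N = p + N * (-(p / N) + 1) := by
      rw [e]
      ring
    rw [e2]
    exact h1 _

theorem t_T1MONO : S_INJT → S_EXT → S_T1MONO := by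
  intro _ hE n σ u u' v' v hn hp h1 h2 h3 hT
  obtain ⟨p0, ⟨q0, hpq⟩, huniq⟩ := hT
  obtain ⟨p, q, _, _, _, hthr⟩ := hE n σ u v hn hp (by omega)
  refine ⟨p, ⟨q, hthr⟩, ?_⟩
  have main : ∀ (p1 q1 p2 q2 : ℤ) (m1 a1 m2 a2 : ℕ) (r1 r2 : ℤ), a1 ≤ a2 → a2 < m2 →
      (∀ i : ℕ, 0 < i → i < m2 → Inn u v ((nxt σ)^[i] (up p2 u))) →
      (nxt σ)^[a1] (up p1 u) = up r1 u' → (nxt σ)^[a2] (up p2 u) = up r2 u' →
      (2 * n + 1 : ℤ) ∣ r2 - r1 → (2 * n + 1 : ℤ) ∣ p2 - p1 := by
    intro p1 q1 p2 q2 m1 a1 m2 a2 r1 r2 hle hlt hin e1 e2 ⟨z, hz⟩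
    have e3 : (nxt σ)^[a2] (up p2 u) = sh ((2 * n + 1) * z) ((nxt σ)^[a1] (up p1 u)) := by
      rw [e1, e2, sh_up]
      congr 1
      linarith
    have e4 := it_back hp z (ok_up p1 u) (ok_up p2 u) hle e3
    rcases Nat.eq_zero_or_pos (a2 - a1) with h0 | h0
    · rw [h0, sh_up] at e4
      have e5 := (up_inj e4).1
      exact ⟨z, by linarith⟩
    · have h5 := hin (a2 - a1) h0 (by omega)
      rw [inn_iff, e4, lev_sh, lev_up] at h5
      omega
  intro p' q' hthr'
  obtain ⟨m1, a1, r1, w1, k1, k2, k3, k4, k5⟩ := contain h1 h2 h3 hthr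
  obtain ⟨m2, a2, r2, w2, j1, j2, j3, j4, j5⟩ := contain h1 h2 h3 hthr'
  have d1 := huniq r1 w1 k5
  have d2 := huniq r2 w2 j5
  have d3 : (2 * n + 1 : ℤ) ∣ r2 - r1 := by
    have := dvd_sub d2 d1
    rwa [show r2 - p0 - (r1 - p0) = r2 - r1 by ring] at this
  rcases Nat.le_total a1 a2 with h | h
  · exact main p q p' q' m1 a1 m2 a2 r1 r2 h j1 j3 k4 j4 d3
  · have d4 : (2 * n + 1 : ℤ) ∣ r1 - r2 := by
      rw [← neg_sub]
      exact (dvd_neg).2 d3
    have := main p' q' p q m2 a2 m1 a1 r2 r1 h k1 k3 j4 k4 d4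
    rw [← neg_sub]
    exact (dvd_neg).2 this

theorem t_T1LOC : ∀ (n : ℕ) (u v h : ℤ) (σ σ' : Cfg),
    (∀ j t : ℤ, u ≤ t → t < v → σ' j (t + h) = σ j t) → T1 n σ u v →
      T1 n σ' (u + h) (v + h) := by
  intro n u v h σ σ' hσ hT
  obtain ⟨p, ⟨q, hpq⟩, huniq⟩ := hT
  refine ⟨p, ⟨q, thr_sv hσ hpq⟩, ?_⟩
  intro p' q' h'
  refine huniq p' q' ?_
  have h2 := thr_sv (σ := σ') (σ' := σ) (h := -h) (by
    intro j t h3 h4
    have h5 := hσ j (t - h) (by omega) (by omega)
    rw [sub_add_cancel] at h5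
    rw [h5, sub_eq_add_neg]) h'
  rwa [add_neg_cancel_right, add_neg_cancel_right] at h2

end Y994.KW
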